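import Pool.Agent.Helper2.LD.St2
import Pool.Agent.Helper2.LD.St2b

/-!
# LD project, module A2b: the data of the hubs are visible
-/

set_option autoImplicit false

namespace Pool.Agent.Helper81.LD

open Pool.Agent.Helper2.LD

/-- Monotonicity in the number of rounds. -/
private theorem efLe (hEFb : StEFb) {V W : Type} (G : SimpleGraph V) (H : SimpleGraph W)
    (p : List (V × W)) (r s : ℕ) (h : r ≤ s) (hs : EF G H s p) : EF G H r p := by
  induction s with
  | zero =>
    have : r = 0 := by omega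
    subst this; exact hs
  | succ s ih =>
    rcases Nat.lt_or_ge s r with h1 | h1
    · have : r = s + 1 := by omega
      subst this; exact hs
    · exact ih h1 (hEFb.mono G H s p hs)

/-- One round. -/
private theorem efStep {V W : Type} (G : SimpleGraph V) (H : SimpleGraph W)
    (p : List (V × W)) (r s : ℕ) (h : s = r + 1) (hs : EF G H s p) (v : V) :
    ∃ w, EF G H r ((v, w) :: p) := by
  subst h
  exact hs.2.1 v

/-- The root vertex of a hub. -/
private def Hb {K V : Type} {k : ℕ} {C : KCode k K} {lab : V → Finset K} (u : FullV k C lab) :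
    Prop := fb u = Fb.root ∧ (own u).1.2 = []

/-- A vertex with given owner hub. -/
private def mkv {K V : Type} (k : ℕ) (C : KCode k K) (lab : V → Finset K) (s : V) :
    FullV k C lab :=
  ⟨(⟨(s, []), ⟨Nat.zero_le _, trivial⟩⟩, Fb.root), trivial⟩

private theorem mkv_hb {K V : Type} (k : ℕ) (C : KCode k K) (lab : V → Finset K) (s : V) :
    Hb (mkv k C lab s) := ⟨rfl, rfl⟩

/-- Distances from a hub in the plain graph. -/
private theorem hubDist (hBrD : StBrD) {K V : Type} (S : SimpleGraph V) (h : ℕ) (x y : BrV K V h)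
    (hx : x.1.2 = []) :
    (brG K S h).edist x y = S.edist x.1.1 y.1.1 + (y.1.2.length : ℕ∞) := by
  by_cases hxy : x.1.1 = y.1.1
  · have h2 := (hBrD S h x y).2 [] y.1.2 [] hxy (by rw [hx]; rfl) (by simp) (Or.inl rfl)
    rw [h2, hxy, SimpleGraph.edist_self]
    simp
  · have h1 := (hBrD S h x y).1 hxy
    rw [h1, hx]
    simp

/-- Equality of a distance with a number. -/
private theorem eqIff (a b : ℕ∞) (n : ℕ) (h : ∀ m : ℕ, m ≤ n → (a ≤ (m : ℕ∞) ↔ b ≤ (m : ℕ∞)))
    (d : ℕ) (hd : d ≤ n) : a = (d : ℕ∞) → b = (d : ℕ∞) := by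
  intro ha
  have h1 : b ≤ (d : ℕ∞) := (h d hd).1 (le_of_eq ha)
  refine le_antisymm h1 ?_
  obtain ⟨m, hm⟩ := ENat.ne_top_iff_exists.1 (ne_top_of_le_ne_top (ENat.coe_ne_top d) h1)
  rw [← hm] at h1 ⊢
  have h2 : m ≤ d := by exact_mod_cast h1
  have h3 := (h m (by omega)).2 (le_of_eq hm.symm)
  rw [ha] at h3
  exact h3

/-- Labels are visible. -/
private theorem labVis (hEFb : StEFb) (hRank : StRank) (hRankL : StRankL) (hLocF : StLocF)
    (hIs : StIs) (hFD : StFD) {K V V' : Type} [Fintype K] [DecidableEq K] (k : ℕ) (hk : 40 ≤ k)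
    (hK : k + 8 ≤ Fintype.card K) (C : KCode k K) (S : SimpleGraph V) (lab : V → Finset K)
    (S' : SimpleGraph V') (lab' : V' → Finset K) (hl : ∀ s, HubL (lab s))
    (p : List (FullV k C lab × FullV k C lab'))
    (hE : EF (full k C S lab) (full k C S' lab') (k - 2) p)
    (u : FullV k C lab) (u' : FullV k C lab') (hm : (u, u') ∈ p) (hu : Hb u) :
    Hb u' ∧ lab (own u).1.1 = lab' (own u').1.1 := by
  have hE8 : EF (full k C S lab) (full k C S' lab') 8 p :=
    efLe hEFb _ _ p 8 (k - 2) (by omega) hE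
  have hpl : Plv (full k C S lab) u := by
    have := (hIs k hk hK C S lab u Cl.pl trivial).2 (by rw [hu.1]; rfl)
    exact this
  have hpl' : Plv (full k C S' lab') u' := (hRank.pl _ _ p u u' hE8 hm).1 hpl
  have hr' : fb u' = Fb.root := by
    have h1 := (hIs k hk hK C S' lab' u' Cl.pl trivial).1 hpl'
    cases h2 : fb u' with
    | root => rfl
    | a1 κ c => rw [h2] at h1; cases h1
    | a2 κ c => rw [h2] at h1; cases h1
    | r κ c => rw [h2] at h1; cases h1
    | lf κ c i => rw [h2] at h1; cases h1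
    | mk κ c i j => rw [h2] at h1; cases h1
  have hL : brL lab (own u) = brL lab' (own u') := by
    ext κ
    have h1 := hRankL.2 k hk C.code (full k C S lab) (full k C S' lab')
      (fun κ i hi => (C.rng κ i hi).2) (hLocF k hk hK C S lab) (hLocF k hk hK C S' lab')
      p u u' hE hm hpl κ
    rw [hFD.strAt k hk hK C S lab u κ hu.1, hFD.strAt k hk hK C S' lab' u' κ hr'] at h1
    exact h1
  have hLu : brL lab (own u) = lab (own u).1.1 := by
    unfold brL
    rw [hu.2]
  have hnil : (own u').1.2 = [] := by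
    cases h2 : (own u').1.2 with
    | nil => rfl
    | cons c l =>
      exfalso
      have h3 : brL lab' (own u') = c := by
        unfold brL
        rw [h2]
      have h4 := (own u').2.2
      rw [h2] at h4
      have h5 : c.card = 3 + (l.length + 1) % 3 := h4.1
      have h6 := hl (own u).1.1
      rw [← hLu, hL, h3] at h6
      obtain ⟨h7, h8, h9⟩ := h6
      omega
  have hLu' : brL lab' (own u') = lab' (own u').1.1 := by
    unfold brL
    rw [hnil]
  exact ⟨⟨hr', hnil⟩, by rw [← hLu, hL, hLu']⟩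

/-- Distances between hubs in the full graph. -/
private theorem hubDistF (hFD : StFD) (hBrD : StBrD) {K V : Type} (k : ℕ) (C : KCode k K)
    (S : SimpleGraph V) (lab : V → Finset K) (u v : FullV k C lab) (hu : Hb u) (hv : Hb v) :
    (full k C S lab).edist u v = S.edist (own u).1.1 (own v).1.1 := by
  rw [hFD.dist k C S lab u v hu.1 hv.1, hubDist hBrD S (HH k) (own u) (own v) hu.2, hv.2]
  simp

/-- The windows are visible, one direction. -/
private theorem winOne (hEFb : StEFb) (hRank : StRank) (hRankL : StRankL)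
    (hIs : StIs) (hFD : StFD) (hBrD : StBrD) {K V V' : Type} [Fintype K] [DecidableEq K] (k : ℕ)
    (hk : 40 ≤ k) (hK : k + 8 ≤ Fintype.card K) (C : KCode k K) (S : SimpleGraph V)
    (lab : V → Finset K) (S' : SimpleGraph V') (lab' : V' → Finset K)
    (u v : FullV k C lab) (u' v' : FullV k C lab')
    (hE : EF (full k C S lab) (full k C S' lab') (k - 2) [(v, v'), (u, u')])
    (hu : Hb u) (hv : Hb v) (hu' : Hb u') (hv' : Hb v')
    (hd : ∀ d : ℕ, d ≤ 2 * NN k → (S.edist (own u).1.1 (own v).1.1 = (d : ℕ∞) →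
      S'.edist (own u').1.1 (own v').1.1 = (d : ℕ∞))) (p : ℕ) (κ : K)
    (hW : Win (EE k) S lab (own u).1.1 (own v).1.1 p κ) :
    Win (EE k) S' lab' (own u').1.1 (own v').1.1 p κ := by
  obtain ⟨q, hp, hq, hst, z, hsz, hzt, hκ⟩ := hW
  have hN : 4 ≤ NN k := by
    have h1 : 2 ^ 2 ≤ 2 ^ (k - 3) := Nat.pow_le_pow_right (by norm_num) (by omega)
    exact le_trans (by norm_num) h1
  have hMM : 0 < MM k := by unfold MM; omega
  have hp4 : p + 4 ≤ NN k := by unfold EE at hp; omega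
  have hq4 : q + 4 ≤ NN k := by unfold EE at hq; omega
  have hst' : S'.edist (own u').1.1 (own v').1.1 = ((p + q : ℕ) : ℕ∞) :=
    hd (p + q) (by omega) hst
  -- the marked leaf
  let ζ : FullV k C lab :=
    ⟨(⟨(z, []), ⟨Nat.zero_le _, trivial⟩⟩, Fb.lf κ true 0), Or.inl hMM⟩
  have hζf : fb ζ = Fb.lf κ true 0 := rfl
  have hζo : (own ζ).1.1 = z := rfl
  have hζn : (own ζ).1.2 = [] := rfl
  have hζb : brL lab (own ζ) = lab z := rfl
  have hk2 : k - 2 = (k - 3) + 1 := by omega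
  rw [hk2] at hE
  obtain ⟨ζ', hE3⟩ := hE.2.1 ζ
  have hstr : StrL (MM k) (full k C S lab) ζ :=
    (hFD.str k hk hK C S lab ζ κ true 0 hζf).2 ⟨rfl, by rw [hζb]; exact hκ⟩
  have hMk : MM k + 1 = k - 3 := by unfold MM; omega
  have hstr' : StrL (MM k) (full k C S' lab') ζ' := by
    have hE3' : EF (full k C S lab) (full k C S' lab') (MM k + 1) [(ζ, ζ'), (v, v'), (u, u')] :=
      efLe hEFb _ _ _ _ _ (le_of_eq hMk) hE3
    exact (hRankL.1 (MM k) (full k C S lab) (full k C S' lab') _ ζ ζ' hE3' (by simp)).1 hstr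
  have hcl : Is k C.code (full k C S lab) (Cl.l κ) ζ :=
    (hIs k hk hK C S lab ζ (Cl.l κ) trivial).2 (by rw [hζf]; rfl)
  have hcl' : Is k C.code (full k C S' lab') (Cl.l κ) ζ' :=
    (hRank.cls k hk C.code (Cl.l κ) (fun κ i hi => (C.rng κ i hi).2) trivial
      (full k C S lab) (full k C S' lab') _ ζ ζ'
      (efLe hEFb _ _ _ (k - 18) (k - 3) (by omega) hE3) (by simp)).1 hcl
  have hcf : Cl.l κ = clOf (fb ζ') := (hIs k hk hK C S' lab' ζ' (Cl.l κ) trivial).1 hcl'
  obtain ⟨c, i, hci⟩ : ∃ c i, fb ζ' = Fb.lf κ c i := by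
    cases h2 : fb ζ' with
    | root => rw [h2] at hcf; cases hcf
    | a1 κ c => rw [h2] at hcf; cases hcf
    | a2 κ c => rw [h2] at hcf; cases hcf
    | r κ c => rw [h2] at hcf; cases hcf
    | lf κ' c i =>
      rw [h2] at hcf
      injection hcf with h3
      exact ⟨c, i, by rw [h3]⟩
    | mk κ c i j => rw [h2] at hcf; cases hcf
  have hκ' : κ ∈ brL lab' (own ζ') :=
    ((hFD.str k hk hK C S' lab' ζ' κ c i hci).1 hstr').2
  -- distances
  have hdist : ∀ (x : FullV k C lab) (x' : FullV k C lab'), Hb x → Hb x' →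
      (x, x') ∈ [(ζ, ζ'), (v, v'), (u, u')] → ∀ a : ℕ, a + 4 ≤ NN k →
      S.edist (own x).1.1 z = (a : ℕ∞) →
      S'.edist (own x').1.1 (own ζ').1.1 + ((own ζ').1.2.length : ℕ∞) = (a : ℕ∞) := by
    intro x x' hx hx' hm a ha hxa
    have h1 : (full k C S lab).edist x ζ = ((a + 4 : ℕ) : ℕ∞) := by
      rw [hFD.leaf k C S lab x ζ κ true 0 hx.1 hζf,
        hubDist hBrD S (HH k) (own x) (own ζ) hx.2, hζn, hζo, hxa]
      simp
    have h2 : (full k C S' lab').edist x' ζ' = ((a + 4 : ℕ) : ℕ∞) := by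
      refine eqIff _ _ (NN k) ?_ (a + 4) ha h1
      intro m hm'
      have hm2 : ((m : ℕ) : ℕ∞) ≤ 2 ^ (k - 3) := by
        have hm3 : m ≤ 2 ^ (k - 3) := hm'
        exact_mod_cast hm3
      exact hRank.dist m (k - 3) hm2 (full k C S lab) (full k C S' lab') _ x ζ x' ζ' hE3 hm
        (by simp)
    rw [hFD.leaf k C S' lab' x' ζ' κ c i hx'.1 hci,
        hubDist hBrD S' (HH k) (own x') (own ζ') hx'.2] at h2
    have h3 : ((a + 4 : ℕ) : ℕ∞) = (a : ℕ∞) + 4 := by push_cast; rfl
    rw [h3] at h2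
    exact (ENat.add_left_injective_of_ne_top (n := 4) (by simp)) h2
  have hd1 := hdist u u' hu hu' (by simp) p hp4 hsz
  have hd2 := hdist v v' hv hv' (by simp) q hq4 (by rw [SimpleGraph.edist_comm]; exact hzt)
  have htri := SimpleGraph.edist_triangle (G := S') (u := (own u').1.1) (v := (own ζ').1.1)
    (w := (own v').1.1)
  rw [hst', SimpleGraph.edist_comm (u := (own ζ').1.1)] at htri
  have hn1 : S'.edist (own u').1.1 (own ζ').1.1 ≠ ⊤ := by
    intro h
    rw [h] at hd1
    simp at hd1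
  have hn2 : S'.edist (own v').1.1 (own ζ').1.1 ≠ ⊤ := by
    intro h
    rw [h] at hd2
    simp at hd2
  obtain ⟨a, ha⟩ := ENat.ne_top_iff_exists.1 hn1
  obtain ⟨b, hb⟩ := ENat.ne_top_iff_exists.1 hn2
  rw [← ha] at hd1 htri
  rw [← hb] at hd2 htri
  have e1 : a + (own ζ').1.2.length = p := by exact_mod_cast hd1
  have e2 : b + (own ζ').1.2.length = q := by exact_mod_cast hd2
  have e3 : p + q ≤ a + b := by exact_mod_cast htri
  have hlen : (own ζ').1.2.length = 0 := by omega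
  have hnil : (own ζ').1.2 = [] := List.length_eq_zero_iff.1 hlen
  have hap : a = p := by omega
  have hbq : b = q := by omega
  refine ⟨q, hp, hq, hst', (own ζ').1.1, ?_, ?_, ?_⟩
  · rw [← ha, hap]
  · rw [SimpleGraph.edist_comm, ← hb, hbq]
  · have h3 : brL lab' (own ζ') = lab' (own ζ').1.1 := by
      unfold brL
      rw [hnil]
    rw [← h3]
    exact hκ'

/-- Pairs of hubs look the same. -/
private theorem pairEq (hEFb : StEFb) (hRank : StRank) (hRankL : StRankL) (hLocF : StLocF)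
    (hIs : StIs) (hFD : StFD) (hBrD : StBrD) {K V V' : Type} [Fintype K] [DecidableEq K] (k : ℕ)
    (hk : 40 ≤ k) (hK : k + 8 ≤ Fintype.card K) (C : KCode k K) (S : SimpleGraph V)
    (lab : V → Finset K) (S' : SimpleGraph V') (lab' : V' → Finset K) (hl : ∀ s, HubL (lab s))
    (u v : FullV k C lab) (u' v' : FullV k C lab')
    (hE : EF (full k C S lab) (full k C S' lab') (k - 2) [(v, v'), (u, u')])
    (hu : Hb u) (hv : Hb v) :
    Hb u' ∧ Hb v' ∧ PairEq (NN k) (EE k) S lab S' lab' (own u).1.1 (own v).1.1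
      (own u').1.1 (own v').1.1 := by
  obtain ⟨hu', hlu⟩ := labVis hEFb hRank hRankL hLocF hIs hFD k hk hK C S lab S' lab' hl _ hE u u'
    (by simp) hu
  obtain ⟨hv', hlv⟩ := labVis hEFb hRank hRankL hLocF hIs hFD k hk hK C S lab S' lab' hl _ hE v v'
    (by simp) hv
  have hN2 : 2 * NN k = 2 ^ (k - 2) := by
    have h1 : k - 2 = (k - 3) + 1 := by omega
    rw [h1, pow_succ]
    unfold NN
    ring
  have hle : ∀ m : ℕ, m ≤ 2 * NN k →
      (S.edist (own u).1.1 (own v).1.1 ≤ (m : ℕ∞) ↔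
        S'.edist (own u').1.1 (own v').1.1 ≤ (m : ℕ∞)) := by
    intro m hm
    have hm2 : ((m : ℕ) : ℕ∞) ≤ 2 ^ (k - 2) := by
      rw [hN2] at hm
      exact_mod_cast hm
    have h1 := hRank.dist m (k - 2) hm2 (full k C S lab)
      (full k C S' lab') _ u v u' v' hE (by simp) (by simp)
    simp only [hubDistF hFD hBrD k C S lab u v hu hv,
      hubDistF hFD hBrD k C S' lab' u' v' hu' hv'] at h1
    exact h1
  have hd1 : ∀ d : ℕ, d ≤ 2 * NN k → (S.edist (own u).1.1 (own v).1.1 = (d : ℕ∞) →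
      S'.edist (own u').1.1 (own v').1.1 = (d : ℕ∞)) := fun d hd =>
    eqIff _ _ (2 * NN k) hle d hd
  have hd2 : ∀ d : ℕ, d ≤ 2 * NN k → (S'.edist (own u').1.1 (own v').1.1 = (d : ℕ∞) →
      S.edist (own u).1.1 (own v).1.1 = (d : ℕ∞)) := fun d hd =>
    eqIff _ _ (2 * NN k) (fun m hm => (hle m hm).symm) d hd
  have hEs : EF (full k C S' lab') (full k C S lab) (k - 2) [(v', v), (u', u)] :=
    hEFb.symm _ _ _ _ hE
  refine ⟨hu', hv', hlv, ?_, fun d hd => ⟨hd1 d hd, hd2 d hd⟩, fun p κ => ⟨?_, ?_⟩⟩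
  · constructor
    · intro h
      have h0 : S.edist (own u).1.1 (own v).1.1 = ((0 : ℕ) : ℕ∞) := by
        rw [h, SimpleGraph.edist_self]; rfl
      have h1 := hd1 0 (Nat.zero_le _) h0
      simpa using h1
    · intro h
      have h0 : S'.edist (own u').1.1 (own v').1.1 = ((0 : ℕ) : ℕ∞) := by
        rw [h, SimpleGraph.edist_self]; rfl
      have h1 := hd2 0 (Nat.zero_le _) h0
      simpa using h1
  · exact winOne hEFb hRank hRankL hIs hFD hBrD k hk hK C S lab S' lab' u v u' v' hE hu hv hu' hv'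
      hd1 p κ
  · exact winOne hEFb hRank hRankL hIs hFD hBrD k hk hK C S' lab' S lab u' v' u v hEs hu' hv' hu hv
      hd2 p κ

/-- `PairEq` is symmetric. -/
private theorem pairSymm {K V V' : Type} (N e : ℕ) (S : SimpleGraph V) (lab : V → Finset K)
    (S' : SimpleGraph V') (lab' : V' → Finset K) (s t : V) (s' t' : V')
    (h : PairEq N e S' lab' S lab s' t' s t) : PairEq N e S lab S' lab' s t s' t' :=
  ⟨h.1.symm, h.2.1.symm, fun d hd => (h.2.2.1 d hd).symm, fun p κ => (h.2.2.2 p κ).symm⟩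

/-- The data after one round. -/
private theorem drOne (hEFb : StEFb) (hRank : StRank) (hRankL : StRankL) (hLocF : StLocF)
    (hIs : StIs) (hFD : StFD) (hBrD : StBrD) {K V V' : Type} [Fintype K] [DecidableEq K] (k : ℕ)
    (hk : 40 ≤ k) (hK : k + 8 ≤ Fintype.card K) (C : KCode k K) (S : SimpleGraph V)
    (lab : V → Finset K) (S' : SimpleGraph V') (lab' : V' → Finset K) (hl : ∀ s, HubL (lab s))
    (u : FullV k C lab) (u' : FullV k C lab')
    (hE : EF (full k C S lab) (full k C S' lab') (k - 1) [(u, u')]) (hu : Hb u) :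
    ∀ t, ∃ t', PairEq (NN k) (EE k) S lab S' lab' (own u).1.1 t (own u').1.1 t' := by
  intro t
  have hk1 : k - 1 = (k - 2) + 1 := by omega
  rw [hk1] at hE
  obtain ⟨v', hv'⟩ := hE.2.1 (mkv k C lab t)
  have h := pairEq hEFb hRank hRankL hLocF hIs hFD hBrD k hk hK C S lab S' lab' hl u
    (mkv k C lab t) u' v' hv' hu (mkv_hb k C lab t)
  exact ⟨(own v').1.1, h.2.2⟩

/-- The data of a hub. -/
private theorem deOne (hEFb : StEFb) (hRank : StRank) (hRankL : StRankL) (hLocF : StLocF)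
    (hIs : StIs) (hFD : StFD) (hBrD : StBrD) {K V V' : Type} [Fintype K] [DecidableEq K] (k : ℕ)
    (hk : 40 ≤ k) (hK : k + 8 ≤ Fintype.card K) (C : KCode k K) (S : SimpleGraph V)
    (lab : V → Finset K) (S' : SimpleGraph V') (lab' : V' → Finset K) (hl : ∀ s, HubL (lab s))
    (hl' : ∀ s, HubL (lab' s)) (hE : EF (full k C S lab) (full k C S' lab') k []) :
    ∀ s, ∃ s', DR (NN k) (EE k) S lab S' lab' s s' := by
  intro s
  obtain ⟨u', hu'⟩ := efStep _ _ _ (k - 1) k (by omega) hE (mkv k C lab s)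
  have hE2 : EF (full k C S lab) (full k C S' lab') (k - 2) [(mkv k C lab s, u')] :=
    efLe hEFb _ _ _ (k - 2) (k - 1) (by omega) hu'
  obtain ⟨hb', hlab⟩ := labVis hEFb hRank hRankL hLocF hIs hFD k hk hK C S lab S' lab' hl _ hE2
    (mkv k C lab s) u' (by simp) (mkv_hb k C lab s)
  refine ⟨(own u').1.1, hlab, ?_, ?_⟩
  · exact drOne hEFb hRank hRankL hLocF hIs hFD hBrD k hk hK C S lab S' lab' hl
      (mkv k C lab s) u' hu' (mkv_hb k C lab s)
  · intro t'
    have hEs : EF (full k C S' lab') (full k C S lab) (k - 1) [(u', mkv k C lab s)] :=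
      hEFb.symm _ _ _ _ hu'
    obtain ⟨t, ht⟩ := drOne hEFb hRank hRankL hLocF hIs hFD hBrD k hk hK C S' lab' S lab hl'
      u' (mkv k C lab s) hEs hb' t'
    exact ⟨t, pairSymm _ _ _ _ _ _ _ _ _ _ ht⟩

/-- Module A2b. -/
theorem pA2b (hEFb : StEFb) (hRank : StRank) (hRankL : StRankL) (hLocF : StLocF)
    (hIs : StIs) (hFD : StFD) (hBrD : StBrD) : StA2b := by
  intro K V V' _ _ k hk hK C S lab S' lab' hl hl' hE
  refine ⟨deOne hEFb hRank hRankL hLocF hIs hFD hBrD k hk hK C S lab S' lab' hl hl' hE, ?_⟩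
  intro s'
  have hEs : EF (full k C S' lab') (full k C S lab) k [] := hEFb.symm _ _ _ _ hE
  obtain ⟨s, h1, h2, h3⟩ := deOne hEFb hRank hRankL hLocF hIs hFD hBrD k hk hK C S' lab' S lab
    hl' hl hEs s'
  refine ⟨s, h1.symm, ?_, ?_⟩
  · intro t
    obtain ⟨t', ht'⟩ := h3 t
    exact ⟨t', pairSymm _ _ _ _ _ _ _ _ _ _ ht'⟩
  · intro t'
    obtain ⟨t, ht⟩ := h2 t'
    exact ⟨t, pairSymm _ _ _ _ _ _ _ _ _ _ ht⟩

end Pool.Agent.Helper81.LD
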