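import Pool.Agent.Helper32.LD.StT2

/-!
# LD project, tiling part, module L6: labels determine the basic labels of the neighbours
-/

set_option autoImplicit false

namespace Pool.Agent.Helper81.LD

open Pool.Agent.Helper2.LD Pool.Agent.Helper32.LD

private theorem iteSome {α : Type} {p q : Prop} [Decidable p] [Decidable q] {a b : α}
    (h : (if p then some a else none) = if q then some b else none) (hp : p) : q ∧ a = b := by
  rw [if_pos hp] at h
  split_ifs at h with hq
  exact ⟨hq, Option.some.inj h⟩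

private theorem btNe (m t : ℕ) (ε : BE m t) : (bt m t).tl ε ≠ (bt m t).hd ε := by
  obtain ⟨⟨d, n, k⟩, h1, h2, h3, h4⟩ := ε
  intro h
  have h5 := congrArg Subtype.val h
  cases d with
  | false =>
    have h6 := congrArg Prod.snd h5
    simp only [bt] at h6
    simp at h6
  | true =>
    have h6 := congrArg Prod.fst h5
    simp only [bt] at h6
    simp at h6

private theorem lbIn {I : Type} (m t al : ℕ) (inf : ℕ → ℕ → I) (ε : BE m t) (i : ℕ)
    (h0 : 0 < i) (h1 : i < al) :
    bsB al (lbB m t al inf ((bt m t).ptE al ε i)) =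
      (some (ε.1.1, ⟨i - 1, by omega⟩), bl inf ε.1.2.1 ε.1.2.2) := by
  unfold MC.ptE
  rw [dif_pos ⟨h0, h1⟩]
  rfl

private theorem lb0 {I : Type} (m t al : ℕ) (inf : ℕ → ℕ → I) (ε : BE m t) :
    bsB al (lbB m t al inf ((bt m t).ptE al ε 0)) = (none, bl inf ε.1.2.1 ε.1.2.2) := by
  unfold MC.ptE
  rw [dif_neg (by omega), if_pos rfl]
  rfl

private theorem lbF {I : Type} (m t al : ℕ) (inf : ℕ → ℕ → I) (ε : BE m t) (hal : 1 ≤ al)
    (hd : ε.1.1 = false) :
    bsB al (lbB m t al inf ((bt m t).ptE al ε al)) = (none, bl inf ε.1.2.1 (ε.1.2.2 + 1)) := by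
  unfold MC.ptE
  rw [dif_neg (by omega), if_neg (by omega)]
  simp only [bt, dif_pos hd]
  rfl

private theorem lbT {I : Type} (m t al : ℕ) (inf : ℕ → ℕ → I) (ε : BE m t) (hal : 1 ≤ al)
    (hd : ε.1.1 = true) :
    bsB al (lbB m t al inf ((bt m t).ptE al ε al)) =
      (none, bl inf (ε.1.2.1 + 1) (2 * ε.1.2.2)) := by
  unfold MC.ptE
  rw [dif_neg (by omega), if_neg (by omega)]
  have hd' : ¬ ε.1.1 = false := by rw [hd]; simp
  simp only [bt, dif_neg hd']
  rfl

private theorem ptF (m t al : ℕ) (ε : BE m t) (i : ℕ) :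
    (bt m t).pt al (ε, false) i = (bt m t).ptE al ε i := by
  simp [MC.pt]

private theorem ptT (m t al : ℕ) (ε : BE m t) (i : ℕ) :
    (bt m t).pt al (ε, true) i = (bt m t).ptE al ε (al - i) := by
  simp [MC.pt]

/-- A neighbour of a macro vertex along the arc `A`. -/
private theorem adjM (hSB : StSB) (m t al : ℕ) (hal : 20 ≤ al) (A : BE m t × Bool) :
    ((bt m t).sub al).Adj (Sum.inl ((bt m t).src A)) ((bt m t).pt al A 1) := by
  have h := hSB.adj (bt m t) al (btNe m t) (by omega) A 0 (by omega)
  rw [hSB.pt0 (bt m t) al A (by omega)] at h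
  exact h

theorem tL6 (hSB : StSB) : StL6 := by
  intro I m t al inf hm ht hal x x' w hlb hadj
  have hadj' : ((bt m t).sub al).Adj x w := hadj
  change ∃ w', ((bt m t).sub al).Adj x' w' ∧ _
  rcases x with v | ⟨ε, i⟩
  · rcases x' with v' | ⟨ε', i'⟩
    swap
    · exact absurd (congrArg Prod.fst hlb) (by simp [lbB])
    have hom : om m t inf v.1.1 v.1.2 = om m t inf v'.1.1 v'.1.2 := congrArg Prod.snd hlb
    obtain ⟨⟨n, k⟩, hn, hk⟩ := v
    obtain ⟨⟨n', k'⟩, hn', hk'⟩ := v'
    simp only [om, Prod.mk.injEq] at hom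
    obtain ⟨h0, hl, hr, hd, hu, -⟩ := hom
    obtain ⟨A, hA, hw⟩ := hSB.nbM (bt m t) al _ w (by omega) hadj'
    obtain ⟨⟨⟨d, n0, k0⟩, e1, e2, e3, e4⟩, b⟩ := A
    cases b with
    | false =>
      have hA2 : (n0, k0) = (n, k) := congrArg Subtype.val hA
      obtain ⟨rfl, rfl⟩ := Prod.mk.inj hA2
      cases d with
      | false =>
        obtain ⟨hq, hb⟩ := iteSome hr (e3 rfl)
        have hsrc : (bt m t).src ((⟨(false, n', k'), hn', hk', fun _ => hq, fun h => by
          simp at h⟩ : BE m t), false) = ⟨(n', k'), hn', hk'⟩ := rfl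
        refine ⟨(bt m t).pt al (⟨(false, n', k'), hn', hk', fun _ => hq, fun h => by
          simp at h⟩, false) 1, by rw [← hsrc]; exact adjM hSB m t al hal _, ?_⟩
        rw [hw, ptF, ptF, lbIn m t al inf _ 1 (by omega) (by omega),
          lbIn m t al inf _ 1 (by omega) (by omega)]
        rw [← h0]
      | true =>
        obtain ⟨hq, hb⟩ := iteSome hd (e4 rfl)
        have hsrc : (bt m t).src ((⟨(true, n', k'), hn', hk', fun h => by simp at h,
          fun _ => hq⟩ : BE m t), false) = ⟨(n', k'), hn', hk'⟩ := rfl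
        refine ⟨(bt m t).pt al (⟨(true, n', k'), hn', hk', fun h => by simp at h,
          fun _ => hq⟩, false) 1, by rw [← hsrc]; exact adjM hSB m t al hal _, ?_⟩
        rw [hw, ptF, ptF, lbIn m t al inf _ 1 (by omega) (by omega),
          lbIn m t al inf _ 1 (by omega) (by omega)]
        rw [← h0]
    | true =>
      cases d with
      | false =>
        have hA2 : (n0, k0 + 1) = (n, k) := congrArg Subtype.val hA
        obtain ⟨rfl, rfl⟩ := Prod.mk.inj hA2
        obtain ⟨hq, hb⟩ := iteSome hl (Nat.succ_pos k0)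
        have hk1 : k' - 1 < m * 2 ^ n' := by
          have : k' ≤ m * 2 ^ n' := hk'
          omega
        have hsrc : (bt m t).src ((⟨(false, n', k' - 1), hn', hk1.le, fun _ => hk1, fun h => by
          simp at h⟩ : BE m t), true) = ⟨(n', k'), hn', hk'⟩ := by
          apply Subtype.ext
          show (n', k' - 1 + 1) = (n', k')
          rw [Nat.sub_add_cancel hq]
        refine ⟨(bt m t).pt al (⟨(false, n', k' - 1), hn', hk1.le, fun _ => hk1, fun h => by
          simp at h⟩, true) 1, ?_, ?_⟩
        · rw [← hsrc]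
          exact adjM hSB m t al hal _
        · rw [hw, ptT, ptT, lbIn m t al inf _ (al - 1) (by omega) (by omega),
            lbIn m t al inf _ (al - 1) (by omega) (by omega)]
          rw [Nat.add_sub_cancel] at hb
          show _ = (_, bl inf n0 k0)
          rw [hb]
      | true =>
        have hA2 : (n0 + 1, 2 * k0) = (n, k) := congrArg Subtype.val hA
        obtain ⟨rfl, rfl⟩ := Prod.mk.inj hA2
        obtain ⟨hq, hb⟩ := iteSome hu (Nat.succ_pos n0)
        have hev : 2 * (k' / 2) = k' := by
          have h7 := congrArg (fun z => z.2.1.val) h0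
          simp only [bl] at h7
          omega
        obtain ⟨n1, rfl⟩ : ∃ n1, n' = n1 + 1 := ⟨n' - 1, by omega⟩
        have hk1 : k' / 2 ≤ m * 2 ^ n1 := by
          have h8 : k' ≤ m * 2 ^ (n1 + 1) := hk'
          have h9 : m * 2 ^ (n1 + 1) = 2 * (m * 2 ^ n1) := by rw [pow_succ]; ring
          omega
        have hn1 : n1 < t := hn'
        have hsrc : (bt m t).src ((⟨(true, n1, k' / 2), hn1.le, hk1, fun h => by simp at h,
          fun _ => hn1⟩ : BE m t), true) = ⟨(n1 + 1, k'), hn', hk'⟩ := by
          apply Subtype.ext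
          show (n1 + 1, 2 * (k' / 2)) = (n1 + 1, k')
          rw [hev]
        refine ⟨(bt m t).pt al (⟨(true, n1, k' / 2), hn1.le, hk1, fun h => by simp at h,
          fun _ => hn1⟩, true) 1, ?_, ?_⟩
        · rw [← hsrc]
          exact adjM hSB m t al hal _
        · rw [hw, ptT, ptT, lbIn m t al inf _ (al - 1) (by omega) (by omega),
            lbIn m t al inf _ (al - 1) (by omega) (by omega)]
          rw [Nat.add_sub_cancel, Nat.add_sub_cancel, Nat.mul_div_cancel_left _ (by norm_num)] at hb
          show _ = (_, bl inf n0 k0)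
          rw [hb]
  · rcases x' with v' | ⟨ε', i'⟩
    · exact absurd (congrArg Prod.fst hlb) (by simp [lbB])
    have hfst : (some (ε.1.1, i) : Option (Bool × Fin (al - 1))) = some (ε'.1.1, i') :=
      congrArg Prod.fst hlb
    have hfst2 := Option.some.inj hfst
    obtain ⟨hd1, hi1⟩ := Prod.mk.inj hfst2
    have hom : om m t inf ε.1.2.1 ε.1.2.2 = om m t inf ε'.1.2.1 ε'.1.2.2 := congrArg Prod.snd hlb
    subst hi1
    have hi2 := i.2
    have hx : ∀ η : BE m t, (Sum.inr (η, i) : SV (BX m t) (BE m t) al) =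
        (bt m t).pt al (η, false) (i.val + 1) := by
      intro η
      rw [ptF]
      unfold MC.ptE
      rw [dif_pos ⟨by omega, by omega⟩]
      congr 1
    rw [hx] at hadj'
    have hb0 : bl inf ε.1.2.1 ε.1.2.2 = bl inf ε'.1.2.1 ε'.1.2.2 := congrArg Prod.fst hom
    rcases hSB.nbI (bt m t) al (ε, false) (i.val + 1) w (by omega) (by omega) hadj' with hw | hw
    · refine ⟨(bt m t).pt al (ε', false) i.val, ?_, ?_⟩
      · rw [hx]
        exact (hSB.adj (bt m t) al (btNe m t) (by omega) (ε', false) i.val (by omega)).symm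
      · rw [hw, Nat.add_sub_cancel, ptF, ptF]
        rcases Nat.eq_zero_or_pos i.val with h0 | h0
        · rw [h0, lb0, lb0, hb0]
        · rw [lbIn m t al inf _ _ h0 (by omega), lbIn m t al inf _ _ h0 (by omega), hb0, hd1]
    · refine ⟨(bt m t).pt al (ε', false) (i.val + 1 + 1), ?_, ?_⟩
      · rw [hx]
        exact hSB.adj (bt m t) al (btNe m t) (by omega) (ε', false) (i.val + 1) (by omega)
      · rw [hw, ptF, ptF]
        rcases Nat.lt_or_ge (i.val + 1 + 1) al with h0 | h0
        · rw [lbIn m t al inf _ _ (by omega) h0, lbIn m t al inf _ _ (by omega) h0, hb0, hd1]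
        · have h1 : i.val + 1 + 1 = al := by omega
          rw [h1]
          simp only [om, Prod.mk.injEq] at hom
          obtain ⟨-, -, hr, hd, -, -⟩ := hom
          cases hd2 : ε.1.1 with
          | false =>
            have hd3 : ε'.1.1 = false := by rw [← hd1, hd2]
            rw [lbF m t al inf ε (by omega) hd2, lbF m t al inf ε' (by omega) hd3]
            rw [(iteSome hr (ε.2.2.2.1 hd2)).2]
          | true =>
            have hd3 : ε'.1.1 = true := by rw [← hd1, hd2]
            rw [lbT m t al inf ε (by omega) hd2, lbT m t al inf ε' (by omega) hd3]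
            rw [(iteSome hd (ε.2.2.2.2 hd2)).2]

end Pool.Agent.Helper81.LD
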